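import Pool.Agent.OrientedForcing.Basic

/-!
# `MOF(G) ≥ n / 2` for comparability graphs

Orient a comparability graph transitively. If a coloured vertex `u` forces `w`, all out-neighbours
of `w` are out-neighbours of `u`, hence coloured; so a forced vertex never forces and there are at
most as many forces as initially coloured vertices. Vertices outside an induced comparability graph
are made to receive all arcs from it.
-/

open OrientedForcing

set_option autoImplicit false

namespace Pool.Agent.Results.MP_ad37e1_co.ComparabilityGraphs

/-- `MOF(G) ≥ |W| / 2` whenever `W` induces a comparability graph in `G`; in particular the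
inequality of Q1 holds for every comparability graph `G`, and for every graph of even order that
becomes a comparability graph after deleting one vertex. -/
theorem result :
    (∀ (V : Type) [Fintype V] (G : SimpleGraph V) (W : Finset V), InducesComparability G W →
      (W.card : ℝ) / 2 ≤ MOF G 1) ∧
    (∀ (V : Type) [Fintype V] (G : SimpleGraph V), InducesComparability G Finset.univ →
      (Fintype.card V : ℝ) / 2 ≤ MOF G 1) ∧
    (∀ (V : Type) [Fintype V] [DecidableEq V] (G : SimpleGraph V) (v : V),
      Even (Fintype.card V) → InducesComparability G (Finset.univ.erase v) →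
      (Fintype.card V : ℝ) / 2 ≤ MOF G 1) := by
  have key0 : ∀ (V : Type) [Fintype V] (G : SimpleGraph V) (W : Finset V),
      InducesComparability G W → W.card ≤ 2 * MOF G 1 := by
    intro V _ G W hW
    rcases isEmpty_or_nonempty V with hV | hV
    · have : W.card = 0 := by
        rw [Finset.card_eq_zero]
        exact Finset.eq_empty_of_isEmpty W
      omega
    · exact card_le_MOF G W hW 1
  have key : ∀ (V : Type) [Fintype V] (G : SimpleGraph V) (W : Finset V),
      InducesComparability G W → (W.card : ℝ) / 2 ≤ MOF G 1 := by
    intro V _ G W hW
    have h : (W.card : ℝ) ≤ 2 * MOF G 1 := by exact_mod_cast key0 V G W hW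
    linarith
  refine ⟨key, fun V _ G h => ?_, fun V _ _ G v hev h => ?_⟩
  · have := key V G Finset.univ h
    rwa [Finset.card_univ] at this
  · have h1 := key0 V G _ h
    rw [Finset.card_erase_of_mem (Finset.mem_univ v), Finset.card_univ] at h1
    obtain ⟨m, hm⟩ := hev
    have h2 : Fintype.card V ≤ 2 * MOF G 1 := by omega
    have h3 : (Fintype.card V : ℝ) ≤ 2 * MOF G 1 := by exact_mod_cast h2
    linarith

end Pool.Agent.Results.MP_ad37e1_co.ComparabilityGraphs
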