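import Pool.Agent.OrientedForcing.DenseReal

/-!
# `MOF(G) ≥ n / 2` for dense graphs

If an orientation of `G` has a forcing set of size at most `s`, a chronological list of forces
(times and forcing vertices: at most `n^(2n)` lists) determines the direction of all but few arcs:
when `w` is coloured by `u`, all arcs between `u` and the vertices coloured not before `w` are
known. These are at least `m (m + 1) / 2` pairs, `m = n - s`. So if `G` misses few edges, the
number `2^e` of orientations exceeds the number of orientations with such a forcing set.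
-/

open OrientedForcing

set_option autoImplicit false

namespace Pool.Agent.Results.MP_ad37e1_co.DenseGraphs

lemma half_le_of_ceil {n M : ℕ} (h : ⌈(n : ℚ) / (((1 : ℕ) : ℚ) + 1)⌉₊ ≤ M) : (n : ℝ) / 2 ≤ M := by
  have h1 : (n : ℚ) / (((1 : ℕ) : ℚ) + 1) ≤ M := (Nat.le_ceil _).trans (by exact_mod_cast h)
  have h2 : (((n : ℚ) / (((1 : ℕ) : ℚ) + 1) : ℚ) : ℝ) ≤ ((M : ℚ) : ℝ) := by exact_mod_cast h1
  push_cast at h2
  linarith

/-- (1) A general lower bound for `MOF`; (2) the inequality of Q1 for all graphs with
`ē + 2 n log₂ n + 1 ≤ n² / 8`, where `ē` is the number of edges of the complement; (3) for every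
`ε > 0` the inequality of Q1 for all large graphs with at most `(1/8 - ε) n²` missing edges, that
is, for all large graphs of density above `3/4`. -/
theorem result :
    (∀ (V : Type) [Fintype V] [Nonempty V] (G : SimpleGraph V) (s d : ℕ),
      2 * d ≤ (Fintype.card V - s) * (Fintype.card V - s + 1) →
      (Gᶜ.edgeSet.ncard : ℝ) + 2 * Fintype.card V * Real.logb 2 (Fintype.card V) < d →
      s + 1 ≤ MOF G 1) ∧
    (∀ (V : Type) [Fintype V] (G : SimpleGraph V),
      (Gᶜ.edgeSet.ncard : ℝ) + 2 * Fintype.card V * Real.logb 2 (Fintype.card V) + 1 ≤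
        (Fintype.card V : ℝ) ^ 2 / 8 →
      (Fintype.card V : ℝ) / 2 ≤ MOF G 1) ∧
    (∀ ε : ℝ, 0 < ε →
      ∃ N : ℕ, ∀ (V : Type) [Fintype V] (G : SimpleGraph V), N ≤ Fintype.card V →
        (Gᶜ.edgeSet.ncard : ℝ) ≤ (1 / 8 - ε) * (Fintype.card V : ℝ) ^ 2 →
        (Fintype.card V : ℝ) / 2 ≤ MOF G 1) := by
  refine ⟨fun _ _ _ G s d hd h => counting_real G le_rfl (by simpa using hd) h,
    fun _ _ G h => half_le_of_ceil (dense G le_rfl ?_), fun ε hε => ?_⟩
  · push_cast
    norm_num
    linarith
  · obtain ⟨N, hN⟩ := dense_eventually (k := 1) le_rfl hε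
    refine ⟨N, fun V _ G hn h => half_le_of_ceil (hN V G hn ?_)⟩
    push_cast
    norm_num at h ⊢
    linarith

end Pool.Agent.Results.MP_ad37e1_co.DenseGraphs
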