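import Pool.Agent.OrientedForcing.Holes

/-!
# `MOF(G) ≥ n / 2` for graphs without sparse pairs of large vertex sets

If an orientation of `G` has a forcing set of size at most `s`, let `A` be the set of the vertices
forcing in the first half of the process and `B` the set of the vertices coloured in the second
half. The list of forces (at most `n^(2n)` lists) determines the direction of all edges between `A`
and `B`; if there are more than `2 n log₂ n` of them for all possible `A`, `B`, the number `2^e` of
orientations exceeds the number of orientations with such a forcing set.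
-/

open OrientedForcing

set_option autoImplicit false

namespace Pool.Agent.Results.MP_ad37e1_co.NoSparsePairs

/-- (1) If any two disjoint vertex sets `A`, `B` with `2 |A| ≥ n - s` and `2 |B| ≥ n - s` have more
than `2 n log₂ n` edges between them, then `MOF(G) ≥ s + 1`. (2) The inequality of Q1 holds if any
two disjoint sets of more than `n / 4` vertices have more than `2 n log₂ n` edges between them. -/
theorem result :
    (∀ (V : Type) [Fintype V] [Nonempty V] (G : SimpleGraph V) (s : ℕ),
      (∀ A B : Finset V, Disjoint A B → Fintype.card V - s ≤ 2 * A.card →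
        Fintype.card V - s ≤ 2 * B.card →
        2 * Fintype.card V * Real.logb 2 (Fintype.card V) < crossEdges G A B) →
      s + 1 ≤ MOF G 1) ∧
    (∀ (V : Type) [Fintype V] (G : SimpleGraph V),
      (∀ A B : Finset V, Disjoint A B →
        (Fintype.card V : ℝ) / 4 < A.card → (Fintype.card V : ℝ) / 4 < B.card →
        2 * Fintype.card V * Real.logb 2 (Fintype.card V) < crossEdges G A B) →
      (Fintype.card V : ℝ) / 2 ≤ MOF G 1) := by
  refine ⟨fun _ _ _ G s h => counting_real' G (by simpa using h), fun V _ G h => ?_⟩
  have h0 : ⌈(Fintype.card V : ℚ) / (((1 : ℕ) : ℚ) + 1)⌉₊ ≤ MOF G 1 := by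
    apply no_sparse_pair G le_rfl
    intro A B hAB hA hB
    apply h A B hAB
    · push_cast at hA
      norm_num at hA
      exact hA
    · push_cast at hB
      norm_num at hB
      exact hB
  have h1 : (Fintype.card V : ℚ) / (((1 : ℕ) : ℚ) + 1) ≤ (MOF G 1 : ℕ) :=
    (Nat.le_ceil _).trans (by exact_mod_cast h0)
  have h2 : (((Fintype.card V : ℚ) / (((1 : ℕ) : ℚ) + 1) : ℚ) : ℝ) ≤ (((MOF G 1 : ℕ) : ℚ) : ℝ) := by
    exact_mod_cast h1
  push_cast at h2
  linarith

end Pool.Agent.Results.MP_ad37e1_co.NoSparsePairs
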