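import Pool.Agent.H293.MOFTri

/-! MP_ad37e1_co: MOF(G) ≥ n/2 for a large recursively defined class of graphs. -/

set_option linter.unusedSectionVars false

namespace MOF293

open Finset

variable {V : Type*}

/-- The reducible graphs: `Reducible G W` speaks of the induced subgraph `G[W]`. -/
inductive Reducible [DecidableEq V] : SimpleGraph V → Finset V → Prop
  /-- comparability graphs (this includes the empty graph, complete and bipartite graphs) -/
  | comparability {G : SimpleGraph V} {W : Finset V} : IsComparabilityOn G W → Reducible G W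
  /-- any vertex may be added if the new order is even -/
  | even {G : SimpleGraph V} {W : Finset V} {v : V} : v ∈ W → Even W.card →
      Reducible G (W.erase v) → Reducible G W
  /-- `u` is isolated or its only neighbour is `v` -/
  | pendant {G : SimpleGraph V} {W : Finset V} {u v : V} : u ∈ W → v ∈ W → u ≠ v →
      (∀ x ∈ W, G.Adj u x → x = v) → Reducible G ((W.erase u).erase v) → Reducible G W
  /-- `u`, `v` are (adjacent or non-adjacent) twins -/
  | twins {G : SimpleGraph V} {W : Finset V} {u v : V} : u ∈ W → v ∈ W → u ≠ v →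
      (∀ x ∈ W, x ≠ u → x ≠ v → (G.Adj u x ↔ G.Adj v x)) →
      Reducible G ((W.erase u).erase v) → Reducible G W
  /-- two pieces of odd order glued at a vertex `c` -/
  | glue {G : SimpleGraph V} {W1 W2 : Finset V} {c : V} : c ∈ W1 → c ∈ W2 →
      (∀ x ∈ W1, x ∈ W2 → x = c) →
      (∀ x ∈ W1, ∀ y ∈ W2, x ≠ c → y ≠ c → ¬ G.Adj x y) →
      Odd W1.card → Odd W2.card → Reducible G W1 → Reducible G W2 → Reducible G (W1 ∪ W2)
  /-- `p`, `q` are adjacent vertices of degree two, on the path `a p q b`; they are replaced by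
  the edge `a b` -/
  | subdivision {G G' : SimpleGraph V} {W : Finset V} {a b p q : V} :
      a ∈ W → b ∈ W → p ∈ W → q ∈ W → a ≠ p → a ≠ q → b ≠ p → b ≠ q → p ≠ q →
      (∀ x ∈ W, G.Adj p x ↔ x = a ∨ x = q) → (∀ x ∈ W, G.Adj q x ↔ x = p ∨ x = b) →
      (∀ x ∈ (W.erase p).erase q, ∀ y ∈ (W.erase p).erase q,
        G'.Adj x y ↔ G.Adj x y ∨ (x = a ∧ y = b) ∨ (x = b ∧ y = a)) →
      Reducible G' ((W.erase p).erase q) → Reducible G W
  /-- `u a b` is a triangle, `u` has degree two and `a` has degree three with third neighbour `x`;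
  `u` and `a` are deleted and `b`, `x` are made adjacent -/
  | triangle {G G' : SimpleGraph V} {W : Finset V} {u a b x : V} :
      u ∈ W → a ∈ W → b ∈ W → x ∈ W → u ≠ a → u ≠ b → u ≠ x → a ≠ b → a ≠ x → b ≠ x →
      (∀ z ∈ W, G.Adj u z ↔ z = a ∨ z = b) → (∀ z ∈ W, G.Adj a z ↔ z = u ∨ z = b ∨ z = x) →
      (∀ y ∈ (W.erase u).erase a, ∀ z ∈ (W.erase u).erase a,
        G'.Adj y z ↔ G.Adj y z ∨ (y = b ∧ z = x) ∨ (y = x ∧ z = b)) →
      Reducible G' ((W.erase u).erase a) → Reducible G W

theorem good_of_reducible [DecidableEq V] {G : SimpleGraph V} {W : Finset V}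
    (h : Reducible G W) : GoodK G W (W.card / 2) := by
  induction h with
  | comparability h => obtain ⟨D, h1, h2⟩ := h; exact good_comp_half _ _ D h1 h2
  | @even G W v hv he _ ih =>
    have := good_vertex _ _ _ _ hv ih
    have hc := Finset.card_erase_add_one hv
    obtain ⟨r, hr⟩ := he
    have e : (W.erase v).card / 2 + 1 = W.card / 2 := by omega
    rwa [e] at this
  | @pendant G W u v hu hv huv hN _ ih =>
    have := good_pendant _ _ _ _ _ hu hv huv hN ih
    have hc := card_erase2 hu hv huv
    have e : ((W.erase u).erase v).card / 2 + 1 = W.card / 2 := by omega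
    rwa [e] at this
  | @twins G W u v hu hv huv hN _ ih =>
    have := good_twins _ _ _ _ _ hu hv huv hN ih
    have hc := card_erase2 hu hv huv
    have e : ((W.erase u).erase v).card / 2 + 1 = W.card / 2 := by omega
    rwa [e] at this
  | @glue G W1 W2 c hc1 hc2 hcap hno ho1 ho2 _ _ ih1 ih2 =>
    have := good_glue _ _ _ _ _ _ hc1 hc2 hcap hno ih1 ih2
    have h3 : W1 ∩ W2 = {c} := by
      ext x
      simp only [Finset.mem_inter, Finset.mem_singleton]
      exact ⟨fun h => hcap x h.1 h.2, fun h => h ▸ ⟨hc1, hc2⟩⟩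
    have h4 := Finset.card_union_add_card_inter W1 W2
    rw [h3, Finset.card_singleton] at h4
    obtain ⟨r1, hr1⟩ := ho1
    obtain ⟨r2, hr2⟩ := ho2
    have e : W1.card / 2 + W2.card / 2 = (W1 ∪ W2).card / 2 := by omega
    rwa [e] at this
  | @subdivision G G' W a b p q ha hb hp hq h1 h2 h3 h4 h5 hNp hNq hG' _ ih =>
    have := good_subdiv _ _ _ _ _ _ _ _ ha hb hp hq h1 h2 h3 h4 h5 hNp hNq hG' ih
    have hc := card_erase2 hp hq h5
    have e : ((W.erase p).erase q).card / 2 + 1 = W.card / 2 := by omega
    rwa [e] at this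
  | @triangle G G' W u a b x hu ha hb hx h1 h2 h3 h4 h5 h6 hNu hNa hG' _ ih =>
    have := good_tri _ _ _ _ _ _ _ _ hu ha hb hx h1 h2 h3 h4 h5 h6 hNu hNa hG' ih
    have hc := card_erase2 hu ha h1
    have e : ((W.erase u).erase a).card / 2 + 1 = W.card / 2 := by omega
    rwa [e] at this

/-- every induced subgraph with at least two vertices has twins, an isolated vertex or a vertex
with exactly one neighbour (by Bandelt and Mulder these are the distance-hereditary graphs) -/
def IsTwinPendant (G : SimpleGraph V) : Prop :=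
  ∀ W : Finset V, 2 ≤ W.card → ∃ u ∈ W, ∃ v ∈ W, u ≠ v ∧
    ((∀ x ∈ W, G.Adj u x → x = v) ∨ (∀ x ∈ W, x ≠ u → x ≠ v → (G.Adj u x ↔ G.Adj v x)))

theorem reducible_of_twinPendant [DecidableEq V] (G : SimpleGraph V) (h : IsTwinPendant G) :
    ∀ n, ∀ W : Finset V, W.card = n → Reducible G W := by
  intro n
  induction n using Nat.strong_induction_on with
  | _ n ih =>
    intro W hW
    by_cases h2 : 2 ≤ W.card
    · obtain ⟨u, hu, v, hv, huv, h3⟩ := h W h2
      have hc := card_erase2 hu hv huv
      have hr := ih _ (by omega) ((W.erase u).erase v) rfl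
      rcases h3 with h3 | h3
      · exact Reducible.pendant hu hv huv h3 hr
      · exact Reducible.twins hu hv huv h3 hr
    · apply Reducible.comparability
      refine ⟨fun _ _ => False, ?_, ?_⟩
      · intro u hu v hv
        have : u = v := Finset.card_le_one.1 (by omega) u hu v hv
        subst this
        exact ⟨False.elim, fun h => absurd h (G.loopless.irrefl _), fun h => h.elim⟩
      · intro u _ v _ w _ h; exact h.elim

end MOF293

namespace Pool.Agent.Results.MP_ad37e1_co.ReducibleGraphs

open MOF293 Finset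

/-- **Q1 for reducible graphs.** -/
theorem result :
    (∀ (V : Type) [Fintype V] [Nonempty V] [DecidableEq V] (G : SimpleGraph V),
      Reducible G Finset.univ → Fintype.card V ≤ 2 * MOF G) ∧
    (∀ (V : Type) [Fintype V] [Nonempty V] (G : SimpleGraph V),
      IsTwinPendant G → Fintype.card V ≤ 2 * MOF G) := by
  classical
  have key : ∀ (V : Type) [Fintype V] [Nonempty V] [DecidableEq V] (G : SimpleGraph V),
      Reducible G Finset.univ → Fintype.card V ≤ 2 * MOF G := by
    intro V _ _ _ G h
    have := le_MOF G _ (good_of_reducible h)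
    rw [Finset.card_univ] at this
    omega
  exact ⟨key, fun V _ _ G h => key V G (reducible_of_twinPendant G h _ _ rfl)⟩

end Pool.Agent.Results.MP_ad37e1_co.ReducibleGraphs
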